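import Pool.Prelude.Def_F_1001536c

set_option autoImplicit false

open Ndcfe74d8

namespace Pool.Agent.Helper266.CT

/-- `I` is a maximal independent set of `H`. -/
def MIS {V : Type} (H : SimpleGraph V) (I : Finset V) : Prop :=
  Maximal (fun J : Finset V => ∀ x ∈ J, ∀ y ∈ J, ¬ H.Adj x y) I

/-- All maximal independent sets have at least `κ |V|` vertices, and every set of fewer than `σ`
vertices is missed by some maximal independent set. -/
def Hit {V : Type} [Fintype V] (H : SimpleGraph V) (κ : ℝ) (σ : ℕ) : Prop :=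
  (∀ I, MIS H I → κ * (Fintype.card V : ℝ) ≤ (I.card : ℝ)) ∧
  ∀ T : Finset V, T.card < σ → ∃ I, MIS H I ∧ Disjoint I T

/-- The recursion: `A` groups of `R` disjoint copies of `H`, and `k` top cliques; the clique `i` has the
vertices `(i, a, c)`, and `(i, a, c)` is adjacent to all vertices of all copies in group `a`. -/
def stepG {V : Type} (H : SimpleGraph V) (A R k σ : ℕ) :
    SimpleGraph ((Fin A × Fin R × V) ⊕ (Fin k × Fin A × Fin σ)) where
  Adj x y := match x, y with
    | Sum.inl p, Sum.inl q => p.1 = q.1 ∧ p.2.1 = q.2.1 ∧ H.Adj p.2.2 q.2.2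
    | Sum.inl p, Sum.inr q => p.1 = q.2.1
    | Sum.inr p, Sum.inl q => p.2.1 = q.1
    | Sum.inr p, Sum.inr q => p.1 = q.1 ∧ p ≠ q
  symm := ⟨by
    rintro (x | x) (y | y) h
    · exact ⟨h.1.symm, h.2.1.symm, h.2.2.symm⟩
    · exact h.symm
    · exact h.symm
    · exact ⟨h.1.symm, h.2.symm⟩⟩
  loopless := ⟨by
    rintro (x | x) h
    · exact H.loopless.irrefl _ h.2.2
    · exact h.2 rfl⟩

theorem step_size {V : Type} [Fintype V] [Nonempty V] (H : SimpleGraph V) (A R k σ : ℕ) (κ : ℝ)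
    (hκ : 0 ≤ κ) (hk : k < A) (hR : 0 < R)
    (h : ∀ I, MIS H I → κ * (Fintype.card V : ℝ) ≤ (I.card : ℝ))
    (I : Finset ((Fin A × Fin R × V) ⊕ (Fin k × Fin A × Fin σ))) (hI : MIS (stepG H A R k σ) I) :
    ((A : ℝ) - k) * R * (κ * (Fintype.card V : ℝ)) ≤ (I.card : ℝ) := by
  classical
  obtain ⟨hI1, hI2⟩ := hI
  set g : Finset (Fin A) := Finset.univ.filter (fun a => ∃ i c, Sum.inr (i, a, c) ∈ I) with hg
  have hgk : g.card ≤ k := by
    have hex : ∀ a : {a // a ∈ g}, ∃ i : Fin k, ∃ c, Sum.inr (i, a.1, c) ∈ I := by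
      rintro ⟨a, ha⟩
      exact (Finset.mem_filter.mp ha).2
    choose f hf using hex
    have hinj : Function.Injective f := by
      intro a a' haa
      by_contra hne
      obtain ⟨c, hc⟩ := hf a
      obtain ⟨c', hc'⟩ := hf a'
      refine hI1 _ hc _ hc' ?_
      refine ⟨haa, ?_⟩
      intro heq
      apply hne
      apply Subtype.ext
      exact congrArg (fun p : Fin k × Fin A × Fin σ => p.2.1) heq
    have := Fintype.card_le_of_injective f hinj
    rw [Fintype.card_coe, Fintype.card_fin] at this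
    exact this
  let J : Fin A → Fin R → Finset V := fun a r => Finset.univ.filter (fun v => Sum.inl (a, r, v) ∈ I)
  have hJ : ∀ a, a ∉ g → ∀ r, MIS H (J a r) := by
    intro a ha r
    refine ⟨?_, ?_⟩
    · intro x hx y hy hadj
      simp only [J, Finset.mem_filter, Finset.mem_univ, true_and] at hx hy
      exact hI1 _ hx _ hy ⟨rfl, rfl, hadj⟩
    · intro K hK hJK v hv
      simp only [J, Finset.mem_filter, Finset.mem_univ, true_and]
      have hnr : ∀ i c, Sum.inr (i, a, c) ∉ I := by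
        intro i c hic
        apply ha
        rw [hg, Finset.mem_filter]
        exact ⟨Finset.mem_univ _, i, c, hic⟩
      have hnew : ∀ y ∈ I, ¬ (stepG H A R k σ).Adj (Sum.inl (a, r, v)) y := by
        intro y hy hadj
        rcases y with ⟨a', r', v'⟩ | ⟨i, a', c⟩
        · obtain ⟨h1, h2, h3⟩ := hadj
          simp only at h1 h2 h3
          subst h1 h2
          have hv' : v' ∈ J a r := by
            simp only [J, Finset.mem_filter, Finset.mem_univ, true_and]
            exact hy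
          exact hK v hv v' (hJK hv') h3
        · have h1 : a = a' := hadj
          subst h1
          exact hnr _ _ hy
      have hins := hI2 (y := insert (Sum.inl (a, r, v)) I) ?_ (Finset.subset_insert _ _)
      · exact hins (Finset.mem_insert_self _ _)
      · intro x hx y hy
        rw [Finset.mem_insert] at hx hy
        rcases hx with hx | hx
        · rcases hy with hy | hy
          · rw [hx, hy]; exact (stepG H A R k σ).loopless.irrefl _
          · rw [hx]; exact hnew y hy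
        · rcases hy with hy | hy
          · rw [hy]; exact fun hadj => hnew x hx hadj.symm
          · exact hI1 x hx y hy
  let T : Finset (Fin A × Fin R × V) := Finset.univ.filter (fun p => p.1 ∉ g ∧ Sum.inl p ∈ I)
  have hTI : T.card ≤ I.card := by
    apply Finset.card_le_card_of_injOn (fun p => (Sum.inl p : (Fin A × Fin R × V) ⊕ (Fin k × Fin A × Fin σ)))
    · intro p hp
      have := (Finset.mem_filter.mp hp).2.2
      exact this
    · intro p _ q _ hpq
      exact Sum.inl_injective hpq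
  have hmap : ∀ p ∈ T, ((p.1, p.2.1) : Fin A × Fin R) ∈ (gᶜ ×ˢ (Finset.univ : Finset (Fin R))) := by
    intro p hp
    have := (Finset.mem_filter.mp hp).2.1
    simp [this]
  have hT := Finset.card_eq_sum_card_fiberwise (f := fun p : Fin A × Fin R × V => ((p.1, p.2.1) : Fin A × Fin R))
    (s := T) (t := gᶜ ×ˢ (Finset.univ : Finset (Fin R))) hmap
  have hfib : ∀ q ∈ gᶜ ×ˢ (Finset.univ : Finset (Fin R)), κ * (Fintype.card V : ℝ) ≤
      ((T.filter (fun p => ((p.1, p.2.1) : Fin A × Fin R) = q)).card : ℝ) := by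
    rintro ⟨a, r⟩ hq
    have ha : a ∉ g := by
      simpa using hq
    refine (h _ (hJ a ha r)).trans ?_
    have : (J a r).card ≤ (T.filter (fun p => ((p.1, p.2.1) : Fin A × Fin R) = (a, r))).card := by
      apply Finset.card_le_card_of_injOn (fun v => (a, r, v))
      · intro v hv
        have hv' := (Finset.mem_filter.mp hv).2
        simp only [Finset.coe_filter, Set.mem_setOf_eq, T, Finset.mem_filter, Finset.mem_univ, true_and, and_true]
        exact ⟨ha, hv'⟩
      · intro v _ v' _ hvv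
        simpa using hvv
    exact_mod_cast this
  have hsum : (((gᶜ ×ˢ (Finset.univ : Finset (Fin R))).card : ℕ) : ℝ) * (κ * (Fintype.card V : ℝ)) ≤ (T.card : ℝ) := by
    rw [hT]
    push_cast
    rw [← nsmul_eq_mul]
    exact Finset.card_nsmul_le_sum _ _ _ hfib
  have hcard : (gᶜ ×ˢ (Finset.univ : Finset (Fin R))).card = (A - g.card) * R := by
    rw [Finset.card_product, Finset.card_compl]
    simp
  rw [hcard] at hsum
  have h1 : ((A : ℝ) - k) * R ≤ (((A - g.card) * R : ℕ) : ℝ) := by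
    push_cast
    have hgA : g.card ≤ A := hgk.trans hk.le
    rw [Nat.cast_sub hgA]
    have : (g.card : ℝ) ≤ k := by exact_mod_cast hgk
    have hR0 : (0 : ℝ) ≤ R := Nat.cast_nonneg R
    nlinarith
  have h2 : 0 ≤ κ * (Fintype.card V : ℝ) := by positivity
  calc ((A : ℝ) - k) * R * (κ * (Fintype.card V : ℝ))
      ≤ (((A - g.card) * R : ℕ) : ℝ) * (κ * (Fintype.card V : ℝ)) := by gcongr
    _ ≤ T.card := hsum
    _ ≤ I.card := by exact_mod_cast hTI

theorem step_assign (A k σ : ℕ) (hk : k < A) (hσ : 0 < σ) (O : Finset (Fin A))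
    (Fu : Finset (Fin k × Fin A)) (hc : O.card + Fu.card ≤ k) :
    ∃ f : Fin k → Fin A, (∀ i, (i, f i) ∉ Fu) ∧ ∀ a ∈ O, ∃ i, f i = a := by
  classical
  have key : ∀ O : Finset (Fin A), O.card + Fu.card ≤ k →
      ∃ f : Fin k → Fin A, (∀ i, (i, f i) ∉ Fu) ∧ ∃ S : Finset (Fin k), S.card ≤ O.card ∧
        ∀ a ∈ O, ∃ i ∈ S, f i = a := by
    intro O
    induction O using Finset.induction_on with
    | empty =>
      intro hO
      have h1 : ∀ i : Fin k, ∃ a : Fin A, (i, a) ∉ Fu := by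
        intro i
        by_contra hcon
        push Not at hcon
        have : (Finset.univ : Finset (Fin A)).card ≤ Fu.card := by
          refine Finset.card_le_card_of_injOn (fun a => (i, a)) (fun a _ => hcon a) ?_
          intro a _ b _ hab
          exact (Prod.mk.inj hab).2
        rw [Finset.card_univ, Fintype.card_fin] at this
        simp only [Finset.card_empty] at hO
        omega
      choose f hf using h1
      exact ⟨f, hf, ∅, le_refl _, by simp⟩
    | insert a O ha ih =>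
      intro hO
      rw [Finset.card_insert_of_notMem ha] at hO
      obtain ⟨f, hf, S, hS, hfS⟩ := ih (by omega)
      have h1 : ∃ i : Fin k, i ∉ S ∧ (i, a) ∉ Fu := by
        by_contra hcon
        push Not at hcon
        have h2 : (Finset.univ \ S : Finset (Fin k)).card ≤ Fu.card := by
          refine Finset.card_le_card_of_injOn (fun i => (i, a))
            (fun i hi => hcon i (by simpa using hi)) ?_
          intro i _ j _ hij
          exact (Prod.mk.inj hij).1
        have h3 := Finset.card_sdiff_add_card_eq_card (Finset.subset_univ S)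
        rw [Finset.card_univ, Fintype.card_fin] at h3
        omega
      obtain ⟨i, hiS, hia⟩ := h1
      refine ⟨Function.update f i a, ?_, insert i S, ?_, ?_⟩
      · intro j
        by_cases hj : j = i
        · subst hj; rw [Function.update_self]; exact hia
        · rw [Function.update_of_ne hj]; exact hf j
      · rw [Finset.card_insert_of_notMem ha]
        exact (Finset.card_insert_le i S).trans (by omega)
      · intro b hb
        rcases Finset.mem_insert.1 hb with rfl | hb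
        · exact ⟨i, Finset.mem_insert_self _ _, Function.update_self _ _ _⟩
        · obtain ⟨j, hj, hjb⟩ := hfS b hb
          refine ⟨j, Finset.mem_insert_of_mem hj, ?_⟩
          have hne : j ≠ i := by
            rintro rfl
            exact hiS hj
          rw [Function.update_of_ne hne]
          exact hjb
  obtain ⟨f, hf, S, _, hfS⟩ := key O hc
  exact ⟨f, hf, fun a ha => (hfS a ha).imp fun i hi => hi.2⟩

theorem mis_nbr {V : Type} {H : SimpleGraph V} {J : Finset V} (hJ : MIS H J) {v : V}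
    (hv : v ∉ J) : ∃ w ∈ J, H.Adj v w := by
  classical
  by_contra hcon
  push Not at hcon
  have h1 : ∀ x ∈ insert v J, ∀ y ∈ insert v J, ¬ H.Adj x y := by
    intro x hx y hy hxy
    rw [Finset.mem_insert] at hx hy
    rcases hx with rfl | hx
    · rcases hy with rfl | hy
      · exact H.loopless.irrefl _ hxy
      · exact hcon y hy hxy
    · rcases hy with rfl | hy
      · exact hcon x hx hxy.symm
      · exact hJ.1 x hx y hy hxy
  exact hv (hJ.2 h1 (Finset.subset_insert v J) (Finset.mem_insert_self v J))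


theorem step_avoid {V : Type} [Fintype V] [Nonempty V] (H : SimpleGraph V) (A R k σ : ℕ)
    (hk : k < A) (hR : 0 < R) (hσ : 0 < σ)
    (h : ∀ T : Finset V, T.card < σ → ∃ I, MIS H I ∧ Disjoint I T)
    (T : Finset ((Fin A × Fin R × V) ⊕ (Fin k × Fin A × Fin σ))) (hT : T.card < (k + 1) * σ) :
    ∃ I, MIS (stepG H A R k σ) I ∧ Disjoint I T := by
  classical
  let O : Finset (Fin A) := Finset.univ.filter (fun a : Fin A =>
    ∃ r : Fin R, σ ≤ (Finset.univ.filter (fun v : V => Sum.inl (a, r, v) ∈ T)).card)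
  let Fu : Finset (Fin k × Fin A) := Finset.univ.filter (fun p : Fin k × Fin A =>
    ∀ c : Fin σ, Sum.inr (p.1, p.2, c) ∈ T)
  have hcount : (O.card + Fu.card) * σ ≤ T.card := by
    let key : ((Fin A × Fin R × V) ⊕ (Fin k × Fin A × Fin σ)) → Fin A ⊕ (Fin k × Fin A) :=
      Sum.elim (fun p => Sum.inl p.1) (fun q => Sum.inr (q.1, q.2.1))
    have h1 : T.card = ∑ y : Fin A ⊕ (Fin k × Fin A), (T.filter (fun x => key x = y)).card :=
      Finset.card_eq_sum_card_fiberwise (fun x _ => by simp)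
    have h2 : ∀ y ∈ O.disjSum Fu, σ ≤ (T.filter (fun x => key x = y)).card := by
      intro y hy
      rw [Finset.mem_disjSum] at hy
      rcases hy with ⟨a, ha, rfl⟩ | ⟨p, hp, rfl⟩
      · obtain ⟨r, hr⟩ := (Finset.mem_filter.mp ha).2
        refine hr.trans ?_
        refine Finset.card_le_card_of_injOn (fun v => Sum.inl (a, r, v)) ?_ ?_
        · intro v hv
          have hv' := (Finset.mem_filter.mp hv).2
          exact Finset.mem_coe.mpr (Finset.mem_filter.mpr ⟨hv', rfl⟩)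
        · intro v _ w _ hvw
          simpa using hvw
      · have hp' := (Finset.mem_filter.mp hp).2
        calc σ = (Finset.univ : Finset (Fin σ)).card := by simp
          _ ≤ _ := by
            refine Finset.card_le_card_of_injOn (fun c => Sum.inr (p.1, p.2, c)) ?_ ?_
            · intro c _
              exact Finset.mem_coe.mpr (Finset.mem_filter.mpr ⟨hp' c, rfl⟩)
            · intro v _ w _ hvw
              simpa using hvw
    calc (O.card + Fu.card) * σ = ∑ _y ∈ O.disjSum Fu, σ := by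
          rw [Finset.sum_const, Finset.card_disjSum, smul_eq_mul]
      _ ≤ ∑ y ∈ O.disjSum Fu, (T.filter (fun x => key x = y)).card := Finset.sum_le_sum h2
      _ ≤ ∑ y : Fin A ⊕ (Fin k × Fin A), (T.filter (fun x => key x = y)).card :=
          Finset.sum_le_sum_of_subset (Finset.subset_univ _)
      _ = T.card := h1.symm
  have hc : O.card + Fu.card ≤ k := by
    have h3 : (O.card + Fu.card) * σ < (k + 1) * σ := lt_of_le_of_lt hcount hT
    have h4 := lt_of_mul_lt_mul_right h3 (Nat.zero_le σ)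
    omega
  obtain ⟨f, hf1, hf2⟩ := step_assign A k σ hk hσ O Fu hc
  have hcex : ∀ i : Fin k, ∃ c : Fin σ, (Sum.inr (i, f i, c) :
      (Fin A × Fin R × V) ⊕ (Fin k × Fin A × Fin σ)) ∉ T := by
    intro i
    by_contra hcon
    push Not at hcon
    exact hf1 i (Finset.mem_filter.mpr ⟨Finset.mem_univ _, hcon⟩)
  choose c hcT using hcex
  have hJex : ∀ (a : Fin A) (r : Fin R), ∃ J : Finset V, (∀ i, f i ≠ a) →
      (MIS H J ∧ ∀ v ∈ J, (Sum.inl (a, r, v) :
        (Fin A × Fin R × V) ⊕ (Fin k × Fin A × Fin σ)) ∉ T) := by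
    intro a r
    by_cases ha : ∀ i, f i ≠ a
    · have hnO : a ∉ O := by
        intro haO
        obtain ⟨i, hi⟩ := hf2 a haO
        exact ha i hi
      have hlt : (Finset.univ.filter (fun v : V => (Sum.inl (a, r, v) :
        (Fin A × Fin R × V) ⊕ (Fin k × Fin A × Fin σ)) ∈ T)).card < σ := by
        by_contra hcon
        push Not at hcon
        exact hnO (Finset.mem_filter.mpr ⟨Finset.mem_univ _, r, hcon⟩)
      obtain ⟨J, hJ, hd⟩ := h _ hlt
      refine ⟨J, fun _ => ⟨hJ, fun v hv hvT => ?_⟩⟩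
      exact Finset.disjoint_left.mp hd hv (Finset.mem_filter.mpr ⟨Finset.mem_univ _, hvT⟩)
    · exact ⟨∅, fun h' => absurd h' ha⟩
  choose J hJ using hJex
  let P : ((Fin A × Fin R × V) ⊕ (Fin k × Fin A × Fin σ)) → Prop :=
    Sum.elim (fun p => (∀ i, f i ≠ p.1) ∧ p.2.2 ∈ J p.1 p.2.1)
      (fun q => q.2.1 = f q.1 ∧ q.2.2 = c q.1)
  have hPr : ∀ i, P (Sum.inr (i, f i, c i)) := fun i => ⟨rfl, rfl⟩
  have hmem : ∀ x, x ∈ Finset.univ.filter P ↔ P x := by
    intro x
    simp
  refine ⟨Finset.univ.filter P, ⟨?_, ?_⟩, ?_⟩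
  · intro x hx y hy hxy
    rw [hmem] at hx hy
    rcases x with p | p <;> rcases y with q | q
    · obtain ⟨a, r, v⟩ := p
      obtain ⟨b, s, w⟩ := q
      obtain ⟨h1, h2, h3⟩ := hxy
      simp only at h1 h2 h3
      subst h1
      subst h2
      exact (hJ a r hx.1).1.1 v hx.2 w hy.2 h3
    · exact hx.1 q.1 (hy.1.symm.trans (Eq.symm hxy))
    · exact hy.1 p.1 (hx.1.symm.trans hxy)
    · obtain ⟨i, a, u⟩ := p
      obtain ⟨j, b, w⟩ := q
      obtain ⟨h1, h2⟩ := hxy
      obtain ⟨hx1, hx2⟩ := hx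
      obtain ⟨hy1, hy2⟩ := hy
      simp only at h1 hx1 hx2 hy1 hy2
      subst h1
      subst hx1
      subst hx2
      subst hy1
      subst hy2
      exact h2 rfl
  · intro J' hJ' hle x hx
    by_contra hxI
    rw [hmem] at hxI
    have hno : ∀ y, P y → ¬ (stepG H A R k σ).Adj x y := by
      intro y hy hxy
      exact hJ' x hx y (hle ((hmem y).mpr hy)) hxy
    rcases x with ⟨a, r, v⟩ | ⟨i, a, u⟩
    · by_cases ha : ∀ i, f i ≠ a
      · have hv : v ∉ J a r := fun hv => hxI ⟨ha, hv⟩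
        obtain ⟨w, hw, hvw⟩ := mis_nbr (hJ a r ha).1 hv
        exact hno (Sum.inl (a, r, w)) ⟨ha, hw⟩ ⟨rfl, rfl, hvw⟩
      · push Not at ha
        obtain ⟨i, hi⟩ := ha
        exact hno _ (hPr i) hi.symm
    · refine hno _ (hPr i) ⟨rfl, ?_⟩
      intro heq
      apply hxI
      rw [heq]
      exact hPr i
  · rw [Finset.disjoint_left]
    intro x hx hxT
    rw [hmem] at hx
    rcases x with ⟨a, r, v⟩ | ⟨i, a, u⟩
    · exact (hJ a r hx.1).2 v hx.2 hxT
    · obtain ⟨h1, h2⟩ := hx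
      simp only at h1 h2
      subst h1
      subst h2
      exact hcT i hxT

theorem hit_transfer_mis {V W : Type} (e : V ≃ W) (H : SimpleGraph V) (H' : SimpleGraph W)
    (he : ∀ x y, H'.Adj (e x) (e y) ↔ H.Adj x y) (J : Finset V) (hJ : MIS H J) :
    MIS H' (J.map e.toEmbedding) := by
  constructor
  · intro x hx y hy hadj
    rw [Finset.mem_map_equiv] at hx hy
    apply hJ.1 _ hx _ hy
    rw [← he]
    simpa using hadj
  · intro K hK hle
    have h1 : J ≤ K.map e.symm.toEmbedding := by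
      intro x hx
      rw [Finset.mem_map_equiv, Equiv.symm_symm]
      apply hle
      rw [Finset.mem_map_equiv]
      simpa using hx
    have h2 := hJ.2 (y := K.map e.symm.toEmbedding) (by
      intro x hx y hy hadj
      rw [Finset.mem_map_equiv, Equiv.symm_symm] at hx hy
      exact hK _ hx _ hy ((he x y).mpr hadj)) h1
    intro x hx
    rw [Finset.mem_map_equiv]
    apply h2
    rw [Finset.mem_map_equiv, Equiv.symm_symm, Equiv.apply_symm_apply]
    exact hx

theorem hit_transfer {V W : Type} [Fintype V] [Fintype W] (e : V ≃ W) (H : SimpleGraph V) (κ : ℝ) (σ : ℕ)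
    (h : Hit H κ σ) : ∃ H' : SimpleGraph W, Hit H' κ σ := by
  refine ⟨H.comap e.symm, ?_, ?_⟩
  · intro I hI
    have h1 := hit_transfer_mis e.symm (H.comap e.symm) H (fun x y => Iff.rfl) I hI
    have h2 := h.1 _ h1
    rw [Finset.card_map, Fintype.card_congr e] at h2
    exact h2
  · intro T hT
    obtain ⟨I, hI, hd⟩ := h.2 (T.map e.symm.toEmbedding) (by rw [Finset.card_map]; exact hT)
    refine ⟨I.map e.toEmbedding, hit_transfer_mis e H (H.comap e.symm) (fun x y => by
      rw [SimpleGraph.comap_adj, Equiv.symm_apply_apply, Equiv.symm_apply_apply]) I hI, ?_⟩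
    rw [Finset.disjoint_left] at hd ⊢
    intro x hx hxT
    rw [Finset.mem_map_equiv] at hx
    apply hd hx
    rw [Finset.mem_map_equiv, Equiv.symm_symm, Equiv.apply_symm_apply]
    exact hxT

theorem step (N A R k σ : ℕ) (κ : ℝ) (hκ : 0 ≤ κ) (hN : 0 < N) (hk : k < A) (hR : 0 < R) (hσ : 0 < σ)
    (H : SimpleGraph (Fin N)) (h : Hit H κ σ) :
    ∃ H' : SimpleGraph (Fin (A * (R * N + k * σ))),
      Hit H' (κ * (1 - (k : ℝ) / A) * (((R * N : ℕ) : ℝ) / ((R * N + k * σ : ℕ) : ℝ))) ((k + 1) * σ) := by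
  have hne : Nonempty (Fin N) := ⟨⟨0, hN⟩⟩
  have hcard : Fintype.card ((Fin A × Fin R × Fin N) ⊕ (Fin k × Fin A × Fin σ)) =
      A * (R * N + k * σ) := by
    simp only [Fintype.card_sum, Fintype.card_prod, Fintype.card_fin]
    ring
  refine hit_transfer (Fintype.equivFinOfCardEq hcard) (stepG H A R k σ) _ _ ⟨fun I hI => ?_, ?_⟩
  · have h1 := step_size H A R k σ κ hκ hk hR h.1 I hI
    rw [hcard]
    refine le_trans (le_of_eq ?_) h1
    have hA : (0 : ℝ) < A := by
      have : 0 < A := by omega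
      exact_mod_cast this
    have hRN : (0 : ℝ) < (R : ℝ) * N := by
      have : 0 < R * N := Nat.mul_pos hR hN
      exact_mod_cast this
    have hden : (0 : ℝ) < (R : ℝ) * N + k * σ := by positivity
    rw [Fintype.card_fin]
    push_cast
    field_simp
  · exact fun T hT => step_avoid H A R k σ hk hR hσ h.2 T hT

/-- the parameters of the levels -/
noncomputable def Nn (k g : ℕ) : ℕ → ℕ
  | 0 => 1
  | 1 => (k * g) * ((k * g) * 1 + k * 1)
  | (l + 2) => (k * g) * (1 * Nn k g (l + 1) + k * (k + 1) ^ (l + 1))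


theorem Nn_bounds (k g : ℕ) (hk : 0 < k) (hg : 2 ≤ g) (l : ℕ) :
    (k * g) ^ (l + 2) ≤ Nn k g (l + 1) ∧ Nn k g (l + 1) ≤ (2 * k * g) ^ (l + 2) ∧
      g * (k * (k + 1) ^ (l + 1)) ≤ Nn k g (l + 1) := by
  have h3 : ∀ l N : ℕ, (k * g) ^ (l + 2) ≤ N → g * (k * (k + 1) ^ (l + 1)) ≤ N := by
    intro l N hN
    have h1 : k + 1 ≤ k * g := by nlinarith
    calc g * (k * (k + 1) ^ (l + 1)) ≤ g * (k * (k * g) ^ (l + 1)) :=
          Nat.mul_le_mul_left _ (Nat.mul_le_mul_left _ (Nat.pow_le_pow_left h1 _))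
      _ = (k * g) ^ (l + 2) := by ring
      _ ≤ N := hN
  induction l with
  | zero =>
    have e : Nn k g 1 = (k * g) * ((k * g) * 1 + k * 1) := rfl
    have hkg : k ≤ k * g := Nat.le_mul_of_pos_right k (by omega)
    have h1 : (k * g) ^ (0 + 2) ≤ Nn k g 1 := by
      rw [e]
      calc (k * g) ^ (0 + 2) = (k * g) * (k * g) := by ring
        _ ≤ (k * g) * ((k * g) * 1 + k * 1) := Nat.mul_le_mul_left _ (by omega)
    refine ⟨h1, ?_, h3 0 _ h1⟩
    rw [e]
    calc (k * g) * ((k * g) * 1 + k * 1) ≤ (k * g) * (2 * (k * g)) :=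
          Nat.mul_le_mul_left _ (by omega)
      _ ≤ (k * g) * (4 * (k * g)) := Nat.mul_le_mul_left _ (by omega)
      _ = (2 * k * g) ^ (0 + 2) := by ring
  | succ l ih =>
    obtain ⟨i1, i2, i3⟩ := ih
    have e : Nn k g (l + 1 + 1) = (k * g) * (1 * Nn k g (l + 1) + k * (k + 1) ^ (l + 1)) := rfl
    have h1 : (k * g) ^ (l + 1 + 2) ≤ Nn k g (l + 1 + 1) := by
      rw [e]
      calc (k * g) ^ (l + 1 + 2) = (k * g) * (k * g) ^ (l + 2) := by ring
        _ ≤ (k * g) * (1 * Nn k g (l + 1) + k * (k + 1) ^ (l + 1)) :=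
          Nat.mul_le_mul_left _ (by rw [one_mul]; exact i1.trans (Nat.le_add_right _ _))
    refine ⟨h1, ?_, h3 (l + 1) _ h1⟩
    rw [e]
    have h4 : k * (k + 1) ^ (l + 1) ≤ Nn k g (l + 1) :=
      (Nat.le_mul_of_pos_left _ (by omega)).trans i3
    calc (k * g) * (1 * Nn k g (l + 1) + k * (k + 1) ^ (l + 1)) ≤
          (k * g) * (2 * (2 * k * g) ^ (l + 2)) := Nat.mul_le_mul_left _ (by omega)
      _ = (2 * k * g) ^ (l + 1 + 2) := by ring

theorem Hit.mono' {V : Type} [Fintype V] {H : SimpleGraph V} {κ κ' : ℝ} {σ : ℕ}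
    (h : Hit H κ σ) (hk : κ' ≤ κ) : Hit H κ' σ :=
  ⟨fun I hI => (mul_le_mul_of_nonneg_right hk (Nat.cast_nonneg _)).trans (h.1 I hI), h.2⟩

theorem mis_bot : MIS (⊥ : SimpleGraph (Fin 1)) Finset.univ := by
  refine ⟨fun x _ y _ h => h, fun J _ _ => Finset.subset_univ J⟩

theorem hit_base : Hit (⊥ : SimpleGraph (Fin 1)) 1 1 := by
  refine ⟨fun I hI => ?_, fun T hT => ⟨Finset.univ, mis_bot, ?_⟩⟩
  · have h1 : (Finset.univ : Finset (Fin 1)) ≤ I := hI.2 mis_bot.1 (Finset.subset_univ I)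
    have h2 : I = Finset.univ := le_antisymm (Finset.subset_univ I) h1
    rw [h2]
    simp
  · have : T = ∅ := by
      rw [← Finset.card_eq_zero]; omega
    rw [this]
    exact Finset.disjoint_empty_right _

theorem levels (k g : ℕ) (hk : 0 < k) (hg : 2 ≤ g) (l : ℕ) :
    ∃ H : SimpleGraph (Fin (Nn k g (l + 1))), Hit H ((1 - 1 / (g : ℝ)) ^ (2 * (l + 1))) ((k + 1) ^ (l + 1)) := by
  have hkR : (0 : ℝ) < k := by exact_mod_cast hk
  have hgR : (2 : ℝ) ≤ g := by exact_mod_cast hg
  have hg0 : (0 : ℝ) < g := by linarith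
  have hA : k < k * g := by nlinarith
  have hq : 1 - (k : ℝ) / ((k * g : ℕ) : ℝ) = 1 - 1 / (g : ℝ) := by
    push_cast
    congr 1
    field_simp
  have hpos : 0 ≤ 1 - 1 / (g : ℝ) := by
    have : 1 / (g : ℝ) ≤ 1 := by rw [div_le_one hg0]; linarith
    linarith
  induction l with
  | zero =>
    obtain ⟨H', h'⟩ := step 1 (k * g) (k * g) k 1 1 zero_le_one one_pos hA (by positivity) one_pos
      ⊥ hit_base
    refine ⟨H', ?_⟩
    have h2 : (k + 1) ^ (0 + 1) = (k + 1) * 1 := by ring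
    rw [h2]
    refine h'.mono' ?_
    rw [hq, one_mul]
    have h3 : (1 - 1 / (g : ℝ)) ≤ (((k * g) * 1 : ℕ) : ℝ) / (((k * g) * 1 + k * 1 : ℕ) : ℝ) := by
      push_cast
      have e : (k : ℝ) * g * 1 / (k * g * 1 + k * 1) = g / (g + 1) := by
        field_simp
      rw [e, sub_le_iff_le_add, ← sub_le_iff_le_add', le_div_iff₀ hg0]
      have : (1 - (g : ℝ) / (g + 1)) = 1 / (g + 1) := by field_simp; ring
      rw [this, div_mul_eq_mul_div, one_mul, div_le_one (by linarith)]
      linarith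
    calc (1 - 1 / (g : ℝ)) ^ (2 * (0 + 1)) = (1 - 1 / (g : ℝ)) * (1 - 1 / (g : ℝ)) := by ring
      _ ≤ _ := mul_le_mul_of_nonneg_left h3 hpos
  | succ l ih =>
    obtain ⟨H, h⟩ := ih
    obtain ⟨hb1, hb2, hb3⟩ := Nn_bounds k g hk hg l
    have hN : 0 < Nn k g (l + 1) := lt_of_lt_of_le (by positivity) hb1
    obtain ⟨H', h'⟩ := step (Nn k g (l + 1)) (k * g) 1 k ((k + 1) ^ (l + 1))
      ((1 - 1 / (g : ℝ)) ^ (2 * (l + 1))) (pow_nonneg hpos _) hN hA one_pos (by positivity) H h
    have hNn : Nn k g (l + 1 + 1) = (k * g) * (1 * Nn k g (l + 1) + k * (k + 1) ^ (l + 1)) := by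
      rw [Nn]
    rw [hNn]
    refine ⟨H', ?_⟩
    have h2 : (k + 1) ^ (l + 1 + 1) = (k + 1) * (k + 1) ^ (l + 1) := pow_succ' _ _
    rw [h2]
    refine h'.mono' ?_
    rw [hq]
    have h3 : (1 - 1 / (g : ℝ)) ≤ ((1 * Nn k g (l + 1) : ℕ) : ℝ) /
        ((1 * Nn k g (l + 1) + k * (k + 1) ^ (l + 1) : ℕ) : ℝ) := by
      have hNR : (0 : ℝ) < ((Nn k g (l + 1) : ℕ) : ℝ) := by exact_mod_cast hN
      have hs : (g : ℝ) * ((k * (k + 1) ^ (l + 1) : ℕ) : ℝ) ≤ ((Nn k g (l + 1) : ℕ) : ℝ) := by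
        exact_mod_cast hb3
      have hs0 : (0 : ℝ) ≤ ((k * (k + 1) ^ (l + 1) : ℕ) : ℝ) := Nat.cast_nonneg _
      rw [one_mul, Nat.cast_add]
      set N : ℝ := ((Nn k g (l + 1) : ℕ) : ℝ)
      set s : ℝ := ((k * (k + 1) ^ (l + 1) : ℕ) : ℝ)
      rw [le_div_iff₀ (by linarith)]
      have e : (1 - 1 / (g : ℝ)) * (N + s) = N + s - (N + s) / g := by ring
      rw [e]
      have h5 : s ≤ (N + s) / g := by
        rw [le_div_iff₀ hg0]; nlinarith
      linarith
    calc (1 - 1 / (g : ℝ)) ^ (2 * (l + 1 + 1))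
        = (1 - 1 / (g : ℝ)) ^ (2 * (l + 1)) * (1 - 1 / (g : ℝ)) * (1 - 1 / (g : ℝ)) := by ring
      _ ≤ _ := mul_le_mul_of_nonneg_left h3 (mul_nonneg (pow_nonneg hpos _) hpos)

/-- pulling back along a balanced surjection -/
theorem pullback (N n m : ℕ) (hm : 0 < m) (hN : 0 < N) (h1 : m * N ≤ n) (h2 : n ≤ (m + 1) * N) (κ : ℝ) (hκ : 0 ≤ κ)
    (σ : ℕ) (H : SimpleGraph (Fin N)) (h : Hit H κ σ) :
    ∃ H' : SimpleGraph (Fin n), Hit H' (κ * ((m : ℝ) / (m + 1))) σ := by
  classical
  obtain ⟨hA, hB⟩ := h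
  set f : Fin n → Fin N := fun x => ⟨x.val % N, Nat.mod_lt _ hN⟩ with hf
  have hmN : N ≤ m * N := Nat.le_mul_of_pos_left N hm
  have hsurj : Function.Surjective f := by
    intro j
    refine ⟨⟨j.val, by have := j.isLt; omega⟩, ?_⟩
    apply Fin.ext
    simp only [hf]
    exact Nat.mod_eq_of_lt j.isLt
  have hfib : ∀ j : Fin N, m ≤ (Finset.univ.filter (fun x : Fin n => f x = j)).card := by
    intro j
    have hlt : ∀ i : Fin m, j.val + i.val * N < n := by
      intro i
      have h3 : (i.val + 1) * N ≤ m * N := Nat.mul_le_mul_right N i.isLt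
      have h4 := j.isLt
      have h5 : (i.val + 1) * N = i.val * N + N := by ring
      omega
    have hinj : Function.Injective (fun i : Fin m => (⟨j.val + i.val * N, hlt i⟩ : Fin n)) := by
      intro a b hab
      simp only [Fin.mk.injEq] at hab
      have h3 : a.val * N = b.val * N := by omega
      exact Fin.ext (Nat.eq_of_mul_eq_mul_right hN h3)
    have hc := Finset.card_le_card_of_injOn (s := (Finset.univ : Finset (Fin m)))
      (t := Finset.univ.filter (fun x : Fin n => f x = j))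
      (fun i : Fin m => (⟨j.val + i.val * N, hlt i⟩ : Fin n)) (by
        intro i _
        simp only [Finset.coe_filter, Finset.mem_univ, true_and, Set.mem_ofPred_eq, hf]
        apply Fin.ext
        simp only [Nat.add_mul_mod_self_right]
        exact Nat.mod_eq_of_lt j.isLt) hinj.injOn
    simpa using hc
  have hindins : ∀ {M : ℕ} (G : SimpleGraph (Fin M)) (I : Finset (Fin M)) (y : Fin M),
      (∀ a ∈ I, ∀ b ∈ I, ¬ G.Adj a b) → (∀ b ∈ I, ¬ G.Adj y b) →
      (∀ a ∈ insert y I, ∀ b ∈ insert y I, ¬ G.Adj a b) := by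
    intro M G I y h1 h2 a ha b hb
    rw [Finset.mem_insert] at ha hb
    rcases ha with rfl | ha
    · rcases hb with rfl | hb
      · exact G.loopless.irrefl _
      · exact h2 b hb
    · rcases hb with rfl | hb
      · intro hh
        exact h2 a ha hh.symm
      · exact h1 a ha b hb
  refine ⟨H.comap f, ?_, ?_⟩
  · intro I' hI'
    have hI1 : ∀ x ∈ I', ∀ y ∈ I', ¬ H.Adj (f x) (f y) := hI'.1
    have hfull : ∀ x ∈ I', ∀ y, f x = f y → y ∈ I' := by
      intro x hx y hxy
      have hP := hindins (H.comap f) I' y hI'.1 (by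
        intro b hb hh
        have hh' : H.Adj (f y) (f b) := hh
        rw [← hxy] at hh'
        exact hI1 x hx b hb hh')
      exact hI'.2 hP (Finset.subset_insert _ _) (Finset.mem_insert_self _ _)
    have hMIS : MIS H (I'.image f) := by
      refine ⟨?_, ?_⟩
      · intro x hx y hy
        rw [Finset.mem_image] at hx hy
        obtain ⟨a, ha, rfl⟩ := hx
        obtain ⟨b, hb, rfl⟩ := hy
        exact hI1 a ha b hb
      · intro J hJ hIJ j hj
        obtain ⟨x, rfl⟩ := hsurj j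
        have hle := hI'.2 (y := Finset.univ.filter (fun x => f x ∈ J)) (by
          intro a ha b hb
          simp only [Finset.mem_filter, Finset.mem_univ, true_and] at ha hb
          exact hJ (f a) ha (f b) hb) (by
          intro a ha
          simp only [Finset.mem_filter, Finset.mem_univ, true_and]
          exact hIJ (Finset.mem_image_of_mem f ha))
        have hx : x ∈ I' := hle (by simp only [Finset.mem_filter, Finset.mem_univ, true_and]; exact hj)
        exact Finset.mem_image_of_mem f hx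
    have hc1 := hA _ hMIS
    have hc2 : m * (I'.image f).card ≤ I'.card := by
      rw [Finset.card_eq_sum_card_image f I']
      rw [mul_comm, ← smul_eq_mul]
      apply Finset.card_nsmul_le_sum
      intro j hj
      rw [Finset.mem_image] at hj
      obtain ⟨x, hx, rfl⟩ := hj
      refine le_trans (hfib (f x)) (Finset.card_le_card ?_)
      intro y hy
      simp only [Finset.mem_filter, Finset.mem_univ, true_and] at hy ⊢
      exact ⟨hfull x hx y hy.symm, hy⟩
    have hc3 : (m : ℝ) * ((I'.image f).card : ℝ) ≤ (I'.card : ℝ) := by exact_mod_cast hc2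
    have hn : (n : ℝ) ≤ ((m : ℝ) + 1) * N := by exact_mod_cast h2
    have hmpos : (0 : ℝ) < (m : ℝ) + 1 := by positivity
    have hm0 : (0 : ℝ) ≤ (m : ℝ) := Nat.cast_nonneg m
    rw [Fintype.card_fin] at hc1 ⊢
    calc κ * ((m : ℝ) / (m + 1)) * (n : ℝ) ≤ κ * ((m : ℝ) / (m + 1)) * (((m : ℝ) + 1) * N) := by
          apply mul_le_mul_of_nonneg_left hn
          positivity
      _ = (m : ℝ) * (κ * N) := by field_simp
      _ ≤ (m : ℝ) * ((I'.image f).card : ℝ) := mul_le_mul_of_nonneg_left hc1 hm0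
      _ ≤ (I'.card : ℝ) := hc3
  · intro T hT
    obtain ⟨I, hI, hdis⟩ := hB (T.image f) (lt_of_le_of_lt Finset.card_image_le hT)
    refine ⟨Finset.univ.filter (fun x => f x ∈ I), ⟨?_, ?_⟩, ?_⟩
    · intro a ha b hb
      simp only [Finset.mem_filter, Finset.mem_univ, true_and] at ha hb
      exact hI.1 (f a) ha (f b) hb
    · intro J hJ hIJ x hx
      simp only [Finset.mem_filter, Finset.mem_univ, true_and]
      have hP := hindins H I (f x) hI.1 (by
        intro b hb
        obtain ⟨y, rfl⟩ := hsurj b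
        have hy : y ∈ J := hIJ (by simp only [Finset.mem_filter, Finset.mem_univ, true_and]; exact hb)
        exact hJ x hx y hy)
      exact hI.2 hP (Finset.subset_insert _ _) (Finset.mem_insert_self _ _)
    · rw [Finset.disjoint_left] at hdis ⊢
      intro x hx hxT
      simp only [Finset.mem_filter, Finset.mem_univ, true_and] at hx
      exact hdis hx (Finset.mem_image_of_mem f hxT)

theorem to_cliques_pred {V : Type} (H : SimpleGraph V) :
    (fun T : Finset V => Hᶜ.IsClique (T : Set V)) =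
      (fun J : Finset V => ∀ x ∈ J, ∀ y ∈ J, ¬ H.Adj x y) := by
  funext J
  apply propext
  constructor
  · intro h x hx y hy hxy
    have := h (Finset.mem_coe.mpr hx) (Finset.mem_coe.mpr hy) hxy.ne
    rw [SimpleGraph.compl_adj] at this
    exact this.2 hxy
  · intro h x hx y hy hxy
    rw [SimpleGraph.compl_adj]
    exact ⟨hxy, h x (Finset.mem_coe.mp hx) y (Finset.mem_coe.mp hy)⟩

/-- from the complement to clique transversals -/
theorem to_cliques (n : ℕ) (H : SimpleGraph (Fin n)) (κ : ℝ) (σ : ℕ) (h : Hit H κ σ) (h2 : 2 ≤ κ * (n : ℝ)) :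
    AllMaximalCliquesAtLeast Hᶜ (κ * (n : ℝ)) ∧ σ ≤ (Hᶜ).cliqueTransversalNumber := by
  constructor
  · rintro s ⟨S, hS, rfl⟩
    rw [to_cliques_pred] at hS
    have := h.1 S hS
    rwa [Fintype.card_fin] at this
  · unfold SimpleGraph.cliqueTransversalNumber
    apply le_csInf
    · refine ⟨_, Finset.univ, ?_, rfl⟩
      intro s hs
      have hc : 0 < s.card := by have := hs.2; omega
      obtain ⟨v, hv⟩ := Finset.card_pos.mp hc
      exact ⟨v, hv, Finset.mem_univ v⟩
    · rintro k ⟨T, hT, rfl⟩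
      by_contra hcon
      push Not at hcon
      obtain ⟨I, hI, hd⟩ := h.2 T hcon
      have hI' := hI
      unfold MIS at hI'
      rw [← to_cliques_pred] at hI'
      have h3 := h.1 I hI
      rw [Fintype.card_fin] at h3
      have h4 : (2 : ℝ) ≤ (I.card : ℝ) := h2.trans h3
      obtain ⟨v, hv, hvT⟩ := hT I ⟨hI', by exact_mod_cast h4⟩
      exact Finset.disjoint_left.mp hd hv hvT

theorem numeric (c ε : ℝ) (hc : c < 1) (hε : 0 < ε) : ∃ g l m₀ : ℕ, 2 ≤ g ∧ 0 < m₀ ∧
    (∀ m : ℕ, m₀ ≤ m → c ≤ (1 - 1 / (g : ℝ)) ^ (2 * (l + 1)) * ((m : ℝ) / (m + 1))) ∧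
    ∀ᶠ n : ℕ in Filter.atTop, ∃ k m : ℕ, 0 < k ∧ m₀ ≤ m ∧ m * Nn k g (l + 1) ≤ n ∧
      n ≤ (m + 1) * Nn k g (l + 1) ∧ (n : ℝ) ^ (1 - ε) ≤ (((k + 1) ^ (l + 1) : ℕ) : ℝ) := by
  obtain ⟨l, hl⟩ := exists_nat_one_div_lt hε
  have hl2 : 1 / ((l : ℝ) + 2) < ε := by
    refine lt_of_le_of_lt ?_ hl
    exact one_div_le_one_div_of_le (by positivity) (by linarith)
  have ht1 : Filter.Tendsto (fun g : ℕ => (1 - 1 / (g : ℝ)) ^ (2 * (l + 1))) Filter.atTop (nhds 1) := by
    have h0 : Filter.Tendsto (fun g : ℕ => (1 : ℝ) - 1 / (g : ℝ)) Filter.atTop (nhds (1 - 0)) :=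
      tendsto_const_nhds.sub tendsto_one_div_atTop_nhds_zero_nat
    have := h0.pow (2 * (l + 1))
    simpa using this
  obtain ⟨g, hg2, hgc⟩ := ((Filter.eventually_ge_atTop 2).and (ht1.eventually (lt_mem_nhds hc))).exists
  set q : ℝ := (1 - 1 / (g : ℝ)) ^ (2 * (l + 1)) with hq
  have ht2 : Filter.Tendsto (fun m : ℕ => q * ((m : ℝ) / (m + 1))) Filter.atTop (nhds (q * 1)) :=
    tendsto_const_nhds.mul (tendsto_natCast_div_add_atTop (1 : ℝ))
  rw [mul_one] at ht2
  obtain ⟨m₁, hm₁⟩ := Filter.eventually_atTop.1 (ht2.eventually (lt_mem_nhds hgc))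
  refine ⟨g, l, m₁ + 1, hg2, Nat.succ_pos _, fun m hm => (hm₁ m (by omega)).le, ?_⟩
  set m₀ := m₁ + 1 with hm₀
  set D : ℝ := (m₀ : ℝ) * (2 * g) ^ (l + 2) with hD
  have hDpos : 0 < D := by
    have : (0 : ℝ) < g := by exact_mod_cast (by omega : 0 < g)
    have h2 : (0 : ℝ) < m₀ := by exact_mod_cast Nat.succ_pos m₁
    positivity
  set φ : ℝ := ((l : ℝ) + 1) / ((l : ℝ) + 2) with hφ
  have hφε : 1 - ε < φ := by
    have : φ = 1 - 1 / ((l : ℝ) + 2) := by rw [hφ]; field_simp; ring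
    rw [this]; linarith
  have hφ0 : 0 ≤ φ := by positivity
  have hev : ∀ᶠ n : ℕ in Filter.atTop, D ^ φ ≤ (n : ℝ) ^ (φ - (1 - ε)) :=
    ((tendsto_rpow_atTop (by linarith : 0 < φ - (1 - ε))).comp
      tendsto_natCast_atTop_atTop).eventually_ge_atTop (D ^ φ)
  filter_upwards [hev, Filter.eventually_ge_atTop (m₀ * Nn 1 g (l + 1)),
    Filter.eventually_ge_atTop 1] with n hn1 hn2 hn3
  have hP1 : m₀ * Nn 1 g (l + 1) ≤ n := hn2
  let P : ℕ → Prop := fun k => m₀ * Nn k g (l + 1) ≤ n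
  classical
  set k := Nat.findGreatest P n with hk
  have hk1 : 1 ≤ k := Nat.le_findGreatest hn3 hP1
  have hPk : m₀ * Nn k g (l + 1) ≤ n := Nat.findGreatest_spec (P := P) hn3 hP1
  have hb := Nn_bounds k g hk1 hg2 l
  have hkn : k + 1 ≤ n := by
    have h1 : k + 1 ≤ (k * g) ^ (l + 2) := by
      have h2 : k * 2 ≤ k * g := Nat.mul_le_mul_left k hg2
      have h3 : k * g ≤ (k * g) ^ (l + 2) := Nat.le_self_pow (by omega) _
      omega
    have h4 : 1 * Nn k g (l + 1) ≤ m₀ * Nn k g (l + 1) := Nat.mul_le_mul_right _ (by omega)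
    omega
  have hNk : 0 < Nn k g (l + 1) := lt_of_lt_of_le (by positivity) hb.1
  have hnot : ¬ P (k + 1) := Nat.findGreatest_is_greatest (Nat.lt_succ_self k) hkn
  have hlt : n < m₀ * Nn (k + 1) g (l + 1) := not_le.1 hnot
  have hb2 := (Nn_bounds (k + 1) g (Nat.succ_pos k) hg2 l).2.1
  have hdiv : n ≤ (n / Nn k g (l + 1) + 1) * Nn k g (l + 1) := by
    have h1 := Nat.div_add_mod n (Nn k g (l + 1))
    have h2 := Nat.mod_lt n hNk
    have h3 : (n / Nn k g (l + 1) + 1) * Nn k g (l + 1)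
        = Nn k g (l + 1) * (n / Nn k g (l + 1)) + Nn k g (l + 1) := by ring
    omega
  refine ⟨k, n / Nn k g (l + 1), hk1, (Nat.le_div_iff_mul_le hNk).2 hPk, Nat.div_mul_le_self _ _,
    hdiv, ?_⟩
  have hnR : (0 : ℝ) < n := by exact_mod_cast (by omega : 0 < n)
  set K : ℝ := (k : ℝ) + 1 with hK
  have hK0 : 0 < K := by positivity
  have hnle : (n : ℝ) ≤ D * K ^ (l + 2) := by
    have h1 : n ≤ m₀ * (2 * (k + 1) * g) ^ (l + 2) :=
      hlt.le.trans (Nat.mul_le_mul_left _ hb2)
    have h2 : (n : ℝ) ≤ ((m₀ * (2 * (k + 1) * g) ^ (l + 2) : ℕ) : ℝ) := by exact_mod_cast h1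
    refine h2.trans (le_of_eq ?_)
    push_cast
    have h5 : (2 * ((k : ℝ) + 1) * (g : ℝ)) ^ (l + 2) = (2 * (g : ℝ)) ^ (l + 2) * ((k : ℝ) + 1) ^ (l + 2) := by
      rw [← mul_pow]; congr 1; ring
    rw [hD, hK, h5]; ring
  have hdk : (n : ℝ) / D ≤ K ^ (l + 2) := by
    rw [div_le_iff₀ hDpos]; linarith [mul_comm D (K ^ (l + 2))]
  have hpow : ((n : ℝ) / D) ^ φ ≤ K ^ (l + 1) := by
    have h1 : ((n : ℝ) / D) ^ φ ≤ (K ^ (l + 2)) ^ φ :=
      Real.rpow_le_rpow (by positivity) hdk hφ0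
    refine h1.trans (le_of_eq ?_)
    rw [← Real.rpow_natCast K (l + 2), ← Real.rpow_mul hK0.le, ← Real.rpow_natCast K (l + 1)]
    congr 1
    rw [hφ]; push_cast
    field_simp
  have hfin : (n : ℝ) ^ (1 - ε) ≤ ((n : ℝ) / D) ^ φ := by
    rw [Real.div_rpow hnR.le hDpos.le, le_div_iff₀ (Real.rpow_pos_of_pos hDpos _)]
    calc (n : ℝ) ^ (1 - ε) * D ^ φ ≤ (n : ℝ) ^ (1 - ε) * (n : ℝ) ^ (φ - (1 - ε)) :=
          mul_le_mul_of_nonneg_left hn1 (Real.rpow_nonneg hnR.le _)
      _ = (n : ℝ) ^ φ := by rw [← Real.rpow_add hnR]; congr 1; ring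
  refine (hfin.trans hpow).trans (le_of_eq ?_)
  rw [hK]; push_cast; ring

theorem main (c ε : ℝ) (hc : c < 1) (hε : 0 < ε) : ∀ᶠ n : ℕ in Filter.atTop,
    ∃ G : SimpleGraph (Fin n), AllMaximalCliquesAtLeast G (c * (n : ℝ)) ∧
      (n : ℝ) ^ (1 - ε) ≤ (G.cliqueTransversalNumber : ℝ) := by
  obtain ⟨g, l, m₀, hg, hm₀, hprod, hev⟩ := numeric c ε hc hε
  have hg1 : (0 : ℝ) < 1 - 1 / (g : ℝ) := by
    have : (2 : ℝ) ≤ g := by exact_mod_cast hg
    have h1 : 1 / (g : ℝ) ≤ 1 / 2 := one_div_le_one_div_of_le (by norm_num) this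
    linarith
  set κ : ℝ := (1 - 1 / (g : ℝ)) ^ (2 * (l + 1)) with hκ
  have hκ0 : 0 < κ := pow_pos hg1 _
  filter_upwards [hev, Filter.eventually_ge_atTop ⌈4 / κ⌉₊] with n hn hn2
  obtain ⟨k, m, hk, hm, h1, h2, h3⟩ := hn
  obtain ⟨H, hH⟩ := levels k g hk hg l
  have hmpos : 0 < m := lt_of_lt_of_le hm₀ hm
  have hNpos : 0 < Nn k g (l + 1) := lt_of_lt_of_le (by positivity) (Nn_bounds k g hk hg l).1
  obtain ⟨H', hH'⟩ := pullback (Nn k g (l + 1)) n m hmpos hNpos h1 h2 _ hκ0.le _ H hH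
  have hmm : (1 : ℝ) / 2 ≤ (m : ℝ) / (m + 1) := by
    have : (1 : ℝ) ≤ m := by exact_mod_cast hmpos
    rw [div_le_div_iff₀ (by norm_num) (by linarith)]
    linarith
  have hnn : 4 / κ ≤ (n : ℝ) := (Nat.le_ceil _).trans (by exact_mod_cast hn2)
  have h4 : 4 ≤ κ * n := by
    rw [div_le_iff₀ hκ0] at hnn
    linarith
  have h22 : 2 ≤ κ * ((m : ℝ) / (m + 1)) * (n : ℝ) := by
    have : κ * ((m : ℝ) / (m + 1)) * (n : ℝ) = (κ * n) * ((m : ℝ) / (m + 1)) := by ring
    rw [this]
    nlinarith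
  obtain ⟨ha, hb⟩ := to_cliques n H' _ _ hH' h22
  refine ⟨H'ᶜ, ?_, ?_⟩
  · intro s hs
    exact (mul_le_mul_of_nonneg_right (hprod m hm) n.cast_nonneg).trans (ha s hs)
  · exact h3.trans (by exact_mod_cast hb)

end Pool.Agent.Helper266.CT
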